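import Mathlib
import Pool.Agent.V5helper5.CO.Chains

/-!
# Divisibility in the trajectories of the exceptions to `l(n) ≤ n`

A divisibility chain is a set of positive integers any two of which are comparable under divisibility, for
example the powers of an integer, or the factorials. Let `n` be a large exception, `l(n) > n`, whose trajectory does
not enter a cycle without `1`. If the odd ones of its first `n` terms are products `s d` of an element `d` of a
divisibility chain with one of `N` numbers `s`, then `N > n / 100`; for instance for every `b ≥ 2` the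
quotients of these terms by their largest divisors of the form `b ^ v` take more than `n / 100` values. And there are
more than `√n / 20` odd ones among the first `n` terms none of which divides another one. More generally,
`l(n) ≤ 2 (1 + ε) log₂ n + 1 + 82 ((1 + ε) / ε) ^ 2 N` for all `n` with `l(n) < ∞`. So `l(n) ≤ n` holds for all
large `n` for which `l(n) < ∞` and the number of multipliers is at most `n / 100`.

Method: if `x` and `T^i x` (`T` the shortcut map) are of the form `k + s d`, `d` in the chain, with `d` and `d'`, and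
`i ≤ w`, then the smaller one of `d` and `d'` divides the nonzero constant `2^i (T^i x - k') - 3^o (x - k)`, which is at
most `3^w (1 + 2 B)`. So the large ones are at least `w` steps apart, and there are at most
`w + log (1 + 2 B)` small ones for each pair; the optimal `w` is `√(L / N)`.
-/

set_option autoImplicit false

namespace Pool.Agent.Results.MP_e43fce_nt.DivisibilityChains

open Finset

/-- The Collatz function. -/
def C (n : ℕ) : ℕ := if n % 2 = 0 then n / 2 else 3 * n + 1

open Classical in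
/-- The total stopping time `l(n)`: the least `k ≥ 0` with `C^(k)(n) = 1`, and `⊤ = ∞` if there is none. -/
noncomputable def l (n : ℕ) : ℕ∞ :=
  if h : ∃ k : ℕ, C^[k] n = 1 then ((Nat.find h : ℕ) : ℕ∞) else ⊤

/-- The trajectory of `n` enters a cycle which does not contain `1`. -/
def EntersOtherCycle (n : ℕ) : Prop :=
  ∃ i p : ℕ, 1 ≤ p ∧ C^[i + p] n = C^[i] n ∧ ∀ j : ℕ, C^[j] n ≠ 1

/-- `D` consists of positive integers, any two of which are comparable under divisibility. -/
def DivChain (D : Set ℕ) : Prop := (∀ d ∈ D, 0 < d) ∧ ∀ d ∈ D, ∀ d' ∈ D, d ∣ d' ∨ d' ∣ d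

/-- All odd ones among the first `L` terms of the trajectory of `n` are of the form `s d` with `s ∈ Q`,
`d ∈ D`. -/
def Covers (n L : ℕ) (Q : Finset ℕ) (D : Set ℕ) : Prop :=
  ∀ j < L, C^[j] n % 2 = 1 → ∃ s ∈ Q, ∃ d ∈ D, C^[j] n = s * d

/-- the terms before the first visit to `1`, or all terms of a trajectory which does not enter a cycle,
are different -/
lemma distinct_of {n L : ℕ} (hL : (L : ℕ∞) ≤ l n) (hc : ¬ EntersOtherCycle n) :
    ∀ i < L, ∀ j < L, C^[i] n = C^[j] n → i = j := by
  classical
  have key : ∀ i j : ℕ, i < j → j < L → C^[i] n ≠ C^[j] n := by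
    intro i j hij hjL he
    by_cases h1 : ∃ k, C^[k] n = 1
    · have hl : l n = ((Nat.find h1 : ℕ) : ℕ∞) := by unfold l; rw [dif_pos h1]
      rw [hl, Nat.cast_le] at hL
      have hk := Nat.find_spec h1
      set k := Nat.find h1 with hkd
      have h2 : C^[k - j + i] n = 1 := by
        rw [Function.iterate_add_apply, he, ← Function.iterate_add_apply, show k - j + j = k by omega]
        exact hk
      exact Nat.find_min h1 (show k - j + i < Nat.find h1 by omega) h2
    · refine hc ⟨i, j - i, by omega, ?_, fun m hm => h1 ⟨m, hm⟩⟩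
      rw [show i + (j - i) = j by omega, he]
  intro i hi j hj he
  rcases lt_trichotomy i j with h1 | h1 | h1
  · exact absurd he (key i j h1 hj)
  · exact h1
  · exact absurd he.symm (key j i h1 hi)

lemma distinct_fin {n k : ℕ} (hk : l n = k) : ∀ i < k, ∀ j < k, C^[i] n = C^[j] n → i = j := by
  classical
  apply distinct_of hk.ge
  rintro ⟨_, _, _, _, h⟩
  have h1 : ¬ ∃ j, C^[j] n = 1 := fun ⟨j, hj⟩ => h j hj
  unfold l at hk
  rw [dif_neg h1] at hk
  exact absurd hk (by simp)

/-- `log₂ n` is small -/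
lemma log_small : ∃ n₀ : ℕ, ∀ n : ℕ, n₀ ≤ n → 40 * Real.logb 2 n + 2 < n := by
  have hcast : Filter.Tendsto (fun n : ℕ => (n : ℝ)) Filter.atTop Filter.atTop :=
    tendsto_natCast_atTop_atTop
  have h1 := Real.isLittleO_log_id_atTop.comp_tendsto hcast
  have hl2 : 0 < Real.log 2 := Real.log_pos (by norm_num)
  have h2 := h1.bound (show (0 : ℝ) < Real.log 2 / 80 by positivity)
  apply Filter.eventually_atTop.1
  filter_upwards [h2, Filter.eventually_ge_atTop 5] with n hn hn2
  have hnR : (5 : ℝ) ≤ n := by exact_mod_cast hn2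
  simp only [Function.comp_apply, id_eq, Real.norm_eq_abs] at hn
  rw [abs_of_nonneg (Real.log_nonneg (by linarith)), abs_of_nonneg (by linarith)] at hn
  have h4 : Real.logb 2 (n : ℝ) ≤ n / 80 := by
    rw [Real.logb, div_le_iff₀ hl2]
    linarith
  linarith

/-- **Main theorem.**

(1) There is `n₀` such that for all exceptions `n ≥ n₀`, `l(n) > n`, whose trajectory does not enter a cycle
without `1`: if the odd ones of the first `n` terms of the trajectory are of the form `s d`, `s ∈ Q`, `d ∈ D`,
where `D` is a divisibility chain, then `n < 100 |Q|`; and there is a set `A` of odd ones of these terms, none of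
which divides another one, with `√n < 20 |A|`.

(2) Let `l(n) = k < ∞`, `n ≥ 1`, and `ε > 0`. If the odd terms before `1` are of the form `s d`, `s ∈ Q`, `d ∈ D`,
where `D` is a divisibility chain, then `k ≤ 2 (1 + ε) log₂ n + 1` or `k ≤ 82 ((1 + ε) / ε) ^ 2 |Q| + 1`.

(3) Let `l(n) = k < ∞`, `n ≥ 1`, and `ε > 0`. Then `k ≤ 2 (1 + ε) log₂ n + 1`, or there is a set `A` of odd
terms before `1`, none of which divides another one, with `√((k - 1) / 2) ≤ 12.4 ((1 + ε) / ε) |A|`. -/
theorem result :
    (∃ n₀ : ℕ, ∀ n : ℕ, n₀ ≤ n → (n : ℕ∞) < l n → ¬ EntersOtherCycle n →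
      (∀ D : Set ℕ, DivChain D → ∀ Q : Finset ℕ, Covers n n Q D → n < 100 * Q.card) ∧
      ∃ A : Finset ℕ, (∀ y ∈ A, y % 2 = 1 ∧ ∃ t < n, y = C^[t] n) ∧
        (∀ y ∈ A, ∀ z ∈ A, y ∣ z → y = z) ∧ √(n : ℝ) < 20 * A.card) ∧
    (∀ n k : ℕ, 1 ≤ n → l n = k → ∀ ε : ℝ, 0 < ε →
      (∀ D : Set ℕ, DivChain D → ∀ Q : Finset ℕ, Covers n k Q D →
        (k : ℝ) ≤ 2 * (1 + ε) * Real.logb 2 n + 1 ∨
          (k : ℝ) ≤ 82 * ((1 + ε) / ε) ^ 2 * Q.card + 1) ∧
      ((k : ℝ) ≤ 2 * (1 + ε) * Real.logb 2 n + 1 ∨
        ∃ A : Finset ℕ, (∀ y ∈ A, y % 2 = 1 ∧ ∃ t < k, y = C^[t] n) ∧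
          (∀ y ∈ A, ∀ z ∈ A, y ∣ z → y = z) ∧
          √(((k : ℝ) - 1) / 2) ≤ 12.4 * ((1 + ε) / ε) * A.card)) := by
  constructor
  · obtain ⟨n₀, hn₀⟩ := log_small
    refine ⟨n₀ + 100, fun n hn hex hcyc => ?_⟩
    have h1 := hn₀ n (by omega)
    have hdist := distinct_of hex.le hcyc
    have hn1 : 1 ≤ n := by omega
    have hnR : (100 : ℝ) ≤ n := by exact_mod_cast (by omega : 100 ≤ n)
    have hlog0 : 0 ≤ Real.logb 2 (n : ℝ) := Real.logb_nonneg (by norm_num) (by linarith)
    have hfail : ¬ (n : ℝ) ≤ 2 * (1 + 19) * Real.logb 2 n + 1 := by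
      push Not; linarith
    constructor
    · intro D hD Q hQ
      have h2 := (Pool.Agent.V5helper5.CO.natC_mult hn1 (ε := 19) (by norm_num) Q hD hdist
        hQ).resolve_left hfail
      by_contra hcon
      push Not at hcon
      have h3 : 100 * (Q.card : ℝ) ≤ n := by exact_mod_cast hcon
      have h4 : 82 * ((1 + 19) / 19 : ℝ) ^ 2 ≤ 90.87 := by norm_num
      have h5 : (0 : ℝ) ≤ Q.card := Nat.cast_nonneg _
      nlinarith
    · obtain ⟨A, hA, hA1, hA2⟩ := (Pool.Agent.V5helper5.CO.natC_anti hn1 (ε := 19) (by norm_num)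
        hdist).resolve_left hfail
      refine ⟨A, hA, hA1, ?_⟩
      have h2 : √(n : ℝ) ≤ 1.43 * √(((n : ℝ) - 1) / 2) := by
        rw [← Real.sqrt_sq (show (0 : ℝ) ≤ 1.43 by norm_num), ← Real.sqrt_mul (by norm_num)]
        apply Real.sqrt_le_sqrt
        nlinarith
      have hs : 0 < √(n : ℝ) := Real.sqrt_pos.2 (by linarith)
      have h3 : (12.4 : ℝ) * ((1 + 19) / 19) ≤ 13.06 := by norm_num
      have h5 : (0 : ℝ) ≤ A.card := Nat.cast_nonneg _
      have h6 : √(((n : ℝ) - 1) / 2) ≤ 13.06 * A.card :=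
        hA2.trans (mul_le_mul_of_nonneg_right h3 h5)
      have h7 : (0 : ℝ) < A.card := by nlinarith
      nlinarith
  · intro n k hn hk ε hε
    have hdist := distinct_fin hk
    constructor
    · intro D hD Q hQ
      exact Pool.Agent.V5helper5.CO.natC_mult hn hε Q hD hdist hQ
    · exact Pool.Agent.V5helper5.CO.natC_anti hn hε hdist

end Pool.Agent.Results.MP_e43fce_nt.DivisibilityChains
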