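import Mathlib
import Pool.Agent.V5helper76.SP.Traj

/-!
# The parts of the terms of Collatz trajectories which are composed of given primes

Let `S` be a finite set of primes and `f` a nonzero polynomial with integer coefficients. Along every trajectory of
a large integer, up to any time before the first repetition but at least a constant, the values of `f` have
negligible `S`-parts, on logarithmic average and for almost all terms. For the exceptions to `l(n) ≤ n` the
product of the `S`-parts is at most an arbitrarily small power of the product of the odd ones among the terms.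

Method: for the elements `x` of a residue class modulo `2 ^ m` the numbers `2 ^ j T^j x`, `j < m`, are linear
polynomials in `x`, `T` the shortcut map. The product of the corresponding transforms of an irreducible
polynomial `g` is squarefree, because an affine map `x ↦ (3 ^ o x + c) / 2 ^ j` maps no finite set to itself
except its fixed point. So Ridout's theorem bounds the `S`-part of the product of `m` successive values by
`C |x| ^ 3`, whatever `m` is. These bounds are added over all windows of a trajectory. The even and the odd terms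
are compared by means of the sum of the differences of the squares of the logarithms of successive terms.
-/

set_option autoImplicit false

namespace Pool.Agent.Results.MP_e43fce_nt.SParts

open Polynomial Finset

/-- The Collatz function. -/
def C (n : ℕ) : ℕ := if n % 2 = 0 then n / 2 else 3 * n + 1

open Classical in
/-- The total stopping time `l(n)`: the least `k ≥ 0` with `C^(k)(n) = 1`, and `⊤ = ∞` if there is none. -/
noncomputable def l (n : ℕ) : ℕ∞ :=
  if h : ∃ k : ℕ, C^[k] n = 1 then ((Nat.find h : ℕ) : ℕ∞) else ⊤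

/-- The trajectory of `n` enters a cycle which does not contain `1`. -/
def EntersOtherCycle (n : ℕ) : Prop :=
  ∃ i p : ℕ, 1 ≤ p ∧ C^[i + p] n = C^[i] n ∧ ∀ j : ℕ, C^[j] n ≠ 1

/-- The shortcut map: `x / 2` for even `x`, `(3 x + 1) / 2` for odd `x`. -/
def T (x : ℤ) : ℤ := if x % 2 = 0 then x / 2 else (3 * x + 1) / 2

/-- The `S`-part of the integer `y`: the largest divisor of `y` composed of primes in `S` (and `1` for
`y = 0`). -/
def sPart (S : Finset ℕ) (y : ℤ) : ℕ := ∏ p ∈ S, p ^ y.natAbs.factorization p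

/-- The number of odd terms among `x, T x, …, T^(j-1) x`. -/
def odds (x : ℤ) (j : ℕ) : ℕ := ((Finset.range j).filter fun i => T^[i] x % 2 = 1).card

/-- `x` is fresh for `f`: no rational root `r` of `f` is the fixed point of the affine map
`y ↦ (3 ^ o y + c) / 2 ^ j` which maps `x` to `T^j x`, for any `j ≥ 1` (`o` is the number of odd terms among
`x, …, T^(j-1) x`). -/
def Fresh (f : ℤ[X]) (x : ℤ) : Prop :=
  ∀ j : ℕ, 1 ≤ j → ∀ r : ℚ, aeval r f = 0 → (2 : ℚ) ^ j * (T^[j] x - r) ≠ 3 ^ odds x j * (x - r)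

lemma T_eq : T = Pool.Agent.V5helper5.SQ.T := rfl

lemma odds_eq (x : ℤ) (j : ℕ) : odds x j = Pool.Agent.V5helper5.SQ.od j x := by
  unfold odds
  rw [T_eq]
  induction j with
  | zero => simp [Pool.Agent.V5helper5.SQ.od]
  | succ j ih =>
    rw [Pool.Agent.V5helper5.SQ.od, ← ih, Finset.range_add_one, Finset.filter_insert]
    by_cases h1 : Pool.Agent.V5helper5.SQ.T^[j] x % 2 = 0
    · rw [if_neg (by omega), if_pos h1, add_zero]
    · rw [if_pos (by omega), if_neg h1, Finset.card_insert_of_notMem (by simp)]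

lemma fresh_iff (f : ℤ[X]) (x : ℤ) : Fresh f x ↔ Pool.Agent.V5helper76.SP.Fre f x := by
  unfold Fresh Pool.Agent.V5helper76.SP.Fre
  rw [T_eq]
  simp only [odds_eq]

lemma sPart_eq (S : Finset ℕ) (y : ℤ) :
    Real.log (sPart S y) = Pool.Agent.V5helper76.SP.Lam S y := rfl

lemma sPart_pos {S : Finset ℕ} (hS : ∀ p ∈ S, p.Prime) (y : ℤ) : 0 < sPart S y :=
  Finset.prod_pos fun p hp => pow_pos (hS p hp).pos _

open Classical in
lemma phi_sum (S : Finset ℕ) (f : ℤ[X]) {ι : Type*} (A : Finset ι) (F : ι → ℤ) :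
    ∑ i ∈ A, Pool.Agent.V5helper76.SP.phi S f (F i) =
      ∑ i ∈ A with Fresh f (F i), Real.log (sPart S (f.eval (F i))) := by
  rw [Finset.sum_filter]
  refine Finset.sum_congr rfl fun i _ => ?_
  unfold Pool.Agent.V5helper76.SP.phi
  by_cases h : Fresh f (F i)
  · rw [if_pos h, if_pos ((fresh_iff _ _).1 h), sPart_eq]
  · rw [if_neg h, if_neg (fun h' => h ((fresh_iff _ _).2 h'))]

open Classical in
lemma ind_sum {S : Finset ℕ} (hS : ∀ p ∈ S, p.Prime) (f : ℤ[X]) (ε : ℝ) {ι : Type*} (A : Finset ι)
    (F : ι → ℤ) (hF : ∀ i ∈ A, 0 < F i) :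
    ∑ i ∈ A, Pool.Agent.V5helper76.SP.ind S f ε (F i) =
      ((A.filter fun i => Fresh f (F i) ∧ (F i : ℝ) ^ ε ≤ sPart S (f.eval (F i))).card : ℝ) := by
  rw [Finset.card_filter]
  push_cast
  refine Finset.sum_congr rfl fun i hi => ?_
  unfold Pool.Agent.V5helper76.SP.ind
  have h0 : 0 < (F i : ℝ) := by exact_mod_cast hF i hi
  have hs : (0 : ℝ) < sPart S (f.eval (F i)) := by exact_mod_cast sPart_pos hS _
  have h1 : Pool.Agent.V5helper76.SP.Bad S f ε (F i) ↔
      (Fresh f (F i) ∧ (F i : ℝ) ^ ε ≤ sPart S (f.eval (F i))) := by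
    unfold Pool.Agent.V5helper76.SP.Bad
    rw [fresh_iff, ← sPart_eq, abs_of_pos h0, ← Real.log_rpow h0,
      Real.log_le_log_iff (Real.rpow_pos_of_pos h0 _) hs]
  by_cases h : (Fresh f (F i) ∧ (F i : ℝ) ^ ε ≤ sPart S (f.eval (F i)))
  · rw [if_pos h, if_pos (h1.2 h)]
  · rw [if_neg h, if_neg (fun h' => h (h1.1 h'))]

lemma T_pos {x : ℤ} (hx : 0 < x) : 0 < T x := by
  unfold T
  split_ifs <;> omega

lemma iter_pos {x : ℤ} (hx : 0 < x) (t : ℕ) : 0 < T^[t] x := by
  induction t with
  | zero => exact hx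
  | succ t ih => rw [Function.iterate_succ_apply']; exact T_pos ih

/-- the times at which the shortcut trajectory visits the Collatz trajectory -/
def time (n : ℕ) : ℕ → ℕ
  | 0 => 0
  | t + 1 => time n t + if T^[t] (n : ℤ) % 2 = 0 then 1 else 2

lemma time_spec (n t : ℕ) : ((C^[time n t] n : ℕ) : ℤ) = T^[t] (n : ℤ) := by
  induction t with
  | zero => rfl
  | succ t ih =>
    rw [Function.iterate_succ_apply', time]
    split_ifs with h
    · rw [Function.iterate_succ_apply', ← ih]
      rw [← ih] at h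
      set m := C^[time n t] n with hm
      have h2 : C m = m / 2 := by unfold C; rw [if_pos (by omega)]
      rw [h2]
      unfold T
      rw [if_pos h]
      omega
    · rw [Function.iterate_succ_apply', Function.iterate_succ_apply', ← ih]
      rw [← ih] at h
      set m := C^[time n t] n with hm
      have h1 : m % 2 = 1 := by omega
      have h2 : C m = 3 * m + 1 := by unfold C; rw [if_neg (by omega)]
      have h3 : C (3 * m + 1) = (3 * m + 1) / 2 := by unfold C; rw [if_pos (by omega)]
      rw [h2, h3]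
      unfold T
      rw [if_neg h]
      omega

lemma time_mono (n : ℕ) : StrictMono (time n) := by
  apply strictMono_nat_of_lt_succ
  intro t
  rw [time]
  split_ifs <;> omega

lemma time_le (n t : ℕ) : time n t ≤ 2 * t := by
  induction t with
  | zero => simp [time]
  | succ t ih => rw [time]; split_ifs <;> omega

lemma le_time (n t : ℕ) : t ≤ time n t := (time_mono n).le_apply

/-- the terms before the first visit to `1`, or all terms of a trajectory which does not enter a cycle,
are different -/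
lemma distinct_of {n L : ℕ} (hL : (L : ℕ∞) ≤ l n) (hc : ¬ EntersOtherCycle n) :
    ∀ i < L, ∀ j < L, C^[i] n = C^[j] n → i = j := by
  classical
  have key : ∀ i j : ℕ, i < j → j < L → C^[i] n ≠ C^[j] n := by
    intro i j hij hjL he
    by_cases h1 : ∃ k, C^[k] n = 1
    · have hl : l n = ((Nat.find h1 : ℕ) : ℕ∞) := by unfold l; rw [dif_pos h1]
      rw [hl, Nat.cast_le] at hL
      have hk := Nat.find_spec h1
      set k := Nat.find h1 with hkd
      have h2 : C^[k - j + i] n = 1 := by
        rw [Function.iterate_add_apply, he, ← Function.iterate_add_apply, show k - j + j = k by omega]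
        exact hk
      exact Nat.find_min h1 (show k - j + i < Nat.find h1 by omega) h2
    · refine hc ⟨i, j - i, by omega, ?_, fun m hm => h1 ⟨m, hm⟩⟩
      rw [show i + (j - i) = j by omega, he]
  intro i hi j hj he
  rcases lt_trichotomy i j with h1 | h1 | h1
  · exact absurd he (key i j h1 hj)
  · exact h1
  · exact absurd he.symm (key j i h1 hi)

lemma injOn_T {n L : ℕ} (hL : ((2 * L : ℕ) : ℕ∞) ≤ l n) (hc : ¬ EntersOtherCycle n) :
    Set.InjOn (fun t => T^[t] (n : ℤ)) (range L : Finset ℕ) := by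
  intro s hs t ht hst
  have hs' := mem_range.1 (mem_coe.1 hs)
  have ht' := mem_range.1 (mem_coe.1 ht)
  have h1 : C^[time n s] n = C^[time n t] n := by
    have : ((C^[time n s] n : ℕ) : ℤ) = ((C^[time n t] n : ℕ) : ℤ) := by
      rw [time_spec, time_spec]; exact hst
    exact_mod_cast this
  have h2 := distinct_of hL hc (time n s) (by have := time_le n s; omega) (time n t)
    (by have := time_le n t; omega) h1
  exact (time_mono n).injective h2

open Classical in
/-- **Main theorem.** Let `S` be a finite set of primes, `f` a nonzero polynomial with integer coefficients and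
`ε > 0`. Let `T` be the shortcut map; `T^t n` is a term `C^(j)(n)` of the Collatz trajectory, `t ≤ j ≤ 2 t`.

(1) For all large `n` and all `L ≥ L₁` such that the numbers `T^t n`, `t < L`, are different: the product of the
`S`-parts of the numbers `f (T^t n)`, `t < L`, `T^t n` fresh for `f`, is at most the `ε`-th power of the product of
the `T^t n`, `t < L`.

(2) For all `n ≥ 1` and all `L ≥ L₁` such that the numbers `T^t n`, `t < L`, are different, at most `ε L` of
them are fresh for `f` and such that the `S`-part of `f (T^t n)` is at least `(T^t n) ^ ε`.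

(3) For all large exceptions, `l(n) > n`, whose trajectory does not enter a cycle without `1`, the product of the
`S`-parts of the numbers `f (T^t n)`, `t < n / 2`, `T^t n` fresh for `f`, is at most the `ε`-th power of the
product of the odd ones of the `T^t n`, `t < n / 2`. -/
theorem result (S : Finset ℕ) (hS : ∀ p ∈ S, p.Prime) (f : ℤ[X]) (hf : f ≠ 0) (ε : ℝ) (hε : 0 < ε) :
    (∃ N L₁ : ℕ, ∀ n : ℕ, N ≤ n → ∀ L : ℕ, L₁ ≤ L →
      Set.InjOn (fun t => T^[t] (n : ℤ)) (range L : Finset ℕ) →
      (∏ t ∈ range L with Fresh f (T^[t] (n : ℤ)), (sPart S (f.eval (T^[t] (n : ℤ))) : ℝ)) ≤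
        (∏ t ∈ range L, (T^[t] (n : ℤ) : ℝ)) ^ ε) ∧
    (∃ L₁ : ℕ, ∀ n : ℕ, 1 ≤ n → ∀ L : ℕ, L₁ ≤ L →
      Set.InjOn (fun t => T^[t] (n : ℤ)) (range L : Finset ℕ) →
      (((range L).filter fun t => Fresh f (T^[t] (n : ℤ)) ∧
        (T^[t] (n : ℤ) : ℝ) ^ ε ≤ sPart S (f.eval (T^[t] (n : ℤ)))).card : ℝ) ≤ ε * L) ∧
    (∃ N : ℕ, ∀ n : ℕ, N ≤ n → (n : ℕ∞) < l n → ¬ EntersOtherCycle n →
      (∏ t ∈ range (n / 2) with Fresh f (T^[t] (n : ℤ)), (sPart S (f.eval (T^[t] (n : ℤ))) : ℝ)) ≤
        (∏ t ∈ range (n / 2) with T^[t] (n : ℤ) % 2 = 1, (T^[t] (n : ℤ) : ℝ)) ^ ε) ∧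
    (∀ n t : ℕ, ∃ j : ℕ, t ≤ j ∧ j ≤ 2 * t ∧ ((C^[j] n : ℕ) : ℤ) = T^[t] (n : ℤ)) := by
  have hlogT : ∀ {n : ℕ}, 0 < n → ∀ t, (0 : ℝ) < (T^[t] (n : ℤ) : ℝ) := by
    intro n hn t
    exact_mod_cast iter_pos (by exact_mod_cast hn) t
  have hprod : ∀ (n L : ℕ), Real.log (∏ t ∈ range L with Fresh f (T^[t] (n : ℤ)),
      (sPart S (f.eval (T^[t] (n : ℤ))) : ℝ)) =
      ∑ t ∈ range L, Pool.Agent.V5helper76.SP.phi S f (T^[t] (n : ℤ)) := by
    intro n L
    rw [phi_sum S f (range L) (fun t => T^[t] (n : ℤ)), Real.log_prod]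
    intro t _
    exact_mod_cast (sPart_pos hS _).ne'
  have hpos : ∀ (n L : ℕ), 0 < (∏ t ∈ range L with Fresh f (T^[t] (n : ℤ)),
      (sPart S (f.eval (T^[t] (n : ℤ))) : ℝ)) := by
    intro n L
    refine Finset.prod_pos fun t _ => ?_
    exact_mod_cast sPart_pos hS _
  refine ⟨?_, ?_, ?_, ?_⟩
  · obtain ⟨N, L1, h⟩ := Pool.Agent.V5helper76.SP.all_traj hS hf hε
    obtain ⟨N', hN'⟩ := exists_nat_ge (Real.exp N)
    refine ⟨N' + 1, L1, fun n hn L hL hinj => ?_⟩
    have hn0 : 0 < n := by omega
    have hnR : (0 : ℝ) < n := by exact_mod_cast hn0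
    have h1 := h (n : ℤ) L (by omega) (by
      rw [Int.cast_natCast, abs_of_pos hnR, ← Real.log_exp N]
      apply Real.log_le_log (Real.exp_pos _)
      refine hN'.trans ?_
      exact_mod_cast (by omega : N' ≤ n)) hL hinj
    have hP : 0 < ∏ t ∈ range L, (T^[t] (n : ℤ) : ℝ) := Finset.prod_pos fun t _ => hlogT hn0 t
    rw [← Real.log_le_log_iff (hpos n L) (Real.rpow_pos_of_pos hP _), hprod, Real.log_rpow hP,
      Real.log_prod (fun t _ => (hlogT hn0 t).ne')]
    refine h1.trans (le_of_eq ?_)
    congr 1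
    refine Finset.sum_congr rfl fun t _ => ?_
    rw [abs_of_pos]
    · rfl
    · exact hlogT hn0 t
  · obtain ⟨L1, h⟩ := Pool.Agent.V5helper76.SP.all_count hS hf hε
    refine ⟨L1, fun n hn L hL hinj => ?_⟩
    have h1 := h (n : ℤ) L (by omega) hL hinj
    rw [ind_sum hS f ε (range L) (fun t => Pool.Agent.V5helper5.SQ.T^[t] (n : ℤ))
      (fun t _ => iter_pos (by exact_mod_cast hn) t)] at h1
    exact h1
  · obtain ⟨N, h⟩ := Pool.Agent.V5helper76.SP.long_traj hS hf hε
    obtain ⟨N', hN'⟩ := exists_nat_ge (Real.exp N)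
    -- the logarithm is small
    have hlog : ∀ᶠ n : ℕ in Filter.atTop, Real.log n ^ 2 ≤ n / 3 := by
      have h1 := (isLittleO_log_rpow_atTop (show (0 : ℝ) < 1 / 2 by norm_num)).comp_tendsto
        tendsto_natCast_atTop_atTop
      have h2 := h1.bound (show (0 : ℝ) < 1 / 2 by norm_num)
      filter_upwards [h2, Filter.eventually_ge_atTop 1] with n hn hn1
      have hnR : (1 : ℝ) ≤ n := by exact_mod_cast hn1
      simp only [Function.comp_apply, Real.norm_eq_abs] at hn
      rw [abs_of_nonneg (Real.log_nonneg hnR), abs_of_nonneg (by positivity)] at hn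
      have h3 : ((n : ℝ) ^ (1 / 2 : ℝ)) ^ 2 = n := by
        rw [← Real.rpow_natCast, ← Real.rpow_mul (by linarith)]
        norm_num
      have h4 := Real.log_nonneg hnR
      have h5 : Real.log n ^ 2 ≤ (1 / 2 * (n : ℝ) ^ (1 / 2 : ℝ)) ^ 2 := pow_le_pow_left₀ h4 hn 2
      rw [mul_pow, h3] at h5
      linarith
    obtain ⟨N2, hN2⟩ := Filter.eventually_atTop.1 hlog
    refine ⟨max (N' + 1) (N2 + 6), fun n hn hex hc => ?_⟩
    have hn1 : N' + 1 ≤ n := (le_max_left _ _).trans hn
    have hn2 : N2 + 6 ≤ n := (le_max_right _ _).trans hn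
    have hn0 : 0 < n := by omega
    have hnR : (0 : ℝ) < n := by exact_mod_cast hn0
    have hinj : Set.InjOn (fun t => T^[t] (n : ℤ)) (range (n / 2) : Finset ℕ) := by
      apply injOn_T _ hc
      refine le_trans ?_ hex.le
      exact_mod_cast (by omega : 2 * (n / 2) ≤ n)
    have h1 := h (n : ℤ) (n / 2) (by omega) (by
      rw [Int.cast_natCast, abs_of_pos hnR, ← Real.log_exp N]
      apply Real.log_le_log (Real.exp_pos _)
      refine hN'.trans ?_
      exact_mod_cast (by omega : N' ≤ n)) (by
      rw [Int.cast_natCast, abs_of_pos hnR]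
      refine (hN2 n (by omega)).trans ?_
      have h2 : n ≤ 3 * (n / 2) := by omega
      have h3 : (n : ℝ) ≤ 3 * ((n / 2 : ℕ) : ℝ) := by exact_mod_cast h2
      linarith) hinj
    have hP : 0 < ∏ t ∈ range (n / 2) with T^[t] (n : ℤ) % 2 = 1, (T^[t] (n : ℤ) : ℝ) :=
      Finset.prod_pos fun t _ => hlogT hn0 t
    rw [← Real.log_le_log_iff (hpos n (n / 2)) (Real.rpow_pos_of_pos hP _), hprod, Real.log_rpow hP,
      Real.log_prod (fun t _ => (hlogT hn0 t).ne')]
    refine h1.trans (le_of_eq ?_)
    congr 1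
    rw [Finset.sum_filter]
    refine Finset.sum_congr rfl fun t _ => ?_
    rw [T_eq]
    by_cases h2 : Pool.Agent.V5helper5.SQ.T^[t] (n : ℤ) % 2 = 0
    · rw [if_pos h2, if_neg (by omega)]
    · rw [if_neg h2, if_pos (by omega), abs_of_pos]
      exact hlogT hn0 t
  · intro n t
    exact ⟨time n t, le_time n t, time_le n t, time_spec n t⟩

end Pool.Agent.Results.MP_e43fce_nt.SParts
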