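import Mathlib
import Pool.Agent.V5helper2.TR.Mono

set_option autoImplicit false

/-!
# The total stopping time and the parity changes in the sorted list of a trajectory

Write the different terms of the Collatz trajectory `n, C(n), ..., 1` in increasing order and let `A` be the
number of the places where two neighbours have different parity. Passing to the accelerated map `T` does not
increase `A`. In every interval `(y, 2y]` between `n` and the largest term there is an even term (the trajectory has
to come down) and an odd one (it has to go up), hence a change, so that the largest term is at most `2 ^ (A + 1) n`.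
Let `x < x'` be neighbours in the sorted list in an interval `[u, u + 2 ^ r)`, and let all terms be less than
`2 ^ N`. As `2 ^ N` does not divide `x' - x`, there is a first `i < N` such that `T^i x` and `T^i x'` have
different parity, and then a change lies between them. Given `i`, the number of the odd steps and the place of the
change, `x` is determined up to an interval which is much shorter than the given one, unless an earlier iterate is
small, and then again this iterate lies in a shorter interval. So an interval of length `2 ^ r` contains at most
`9 m ^ 2 (A + 1)` times as many terms as the best interval of length about `2 ^ (r / 2)`, with `m` of the order of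
`A + log n`, and after `log_2 m` steps the total stopping time is seen to be at most quasi-polynomial in `m`.
-/

namespace Pool.Agent.Results.MP_e43fce_nt.SortedParityChanges

open Finset

/-- the Collatz function -/
def C (n : ℕ) : ℕ := if n % 2 = 0 then n / 2 else 3 * n + 1

/-- the total stopping time of `n` is finite and equal to `l` -/
def HasTime (n l : ℕ) : Prop := C^[l] n = 1 ∧ ∀ j, j < l → C^[j] n ≠ 1

/-- the set of the terms `n, C(n), ..., C^(l)(n)` -/
def terms (n l : ℕ) : Finset ℕ := (range (l + 1)).image fun j => C^[j] n

/-- The number of the parity changes in `S`: the number of the pairs of elements of `S` which are neighbours in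
the increasing order of `S` and have different parity. -/
def changes (S : Finset ℕ) : ℕ :=
  ((S ×ˢ S).filter fun p =>
    p.1 < p.2 ∧ (∀ z ∈ S, ¬ (p.1 < z ∧ z < p.2)) ∧ p.1 % 2 ≠ p.2 % 2).card

/-- Let `n ≥ 1` have the finite total stopping time `l`, and let `A` be the number of the parity changes of its
trajectory `n, ..., 1`. (1) If `n < 2 ^ ν` then `log l ≤ 5 (1 + log (2 A + 2 ν + 13)) ^ 2`. (2) All terms
are at most `2 ^ (A + 2) n`. (3) There is `c > 0` such that `A + 1 ≥ c exp (sqrt (log n / 5))` for all these `n` with
`l > n`. -/
theorem result :
    (∀ n l ν : ℕ, 1 ≤ n → HasTime n l → n < 2 ^ ν →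
      Real.log l ≤ 5 * (1 + Real.log (2 * changes (terms n l) + 2 * ν + 13)) ^ 2) ∧
    (∀ n l : ℕ, 1 ≤ n → HasTime n l → ∀ m ∈ terms n l, m ≤ 2 ^ (changes (terms n l) + 2) * n) ∧
    (∃ c : ℝ, 0 < c ∧ ∀ n l : ℕ, 1 ≤ n → HasTime n l → n < l →
      c * Real.exp (Real.sqrt (Real.log n / 5)) ≤ changes (terms n l) + 1) := by
  refine ⟨fun n l ν hn h hν => Pool.Agent.V5helper2.TR.time_le hn h hν,
    fun n l hn h m hm => Pool.Agent.V5helper2.TR.max_le' hn h hm, Pool.Agent.V5helper2.TR.exceptions⟩

end Pool.Agent.Results.MP_e43fce_nt.SortedParityChanges
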