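import Mathlib
import Pool.Agent.V5helper5.CO.Nat

/-!
# Squarefree parts of the terms of the exceptions to `l(n) ≤ n`

Every large exception `n`, `l(n) > n`, whose trajectory does not enter a cycle without `1`, has more than `n ^ c`
different squarefree parts among the odd ones of its first `n` terms, for every `c < 1 / 3` (cubefree parts, and
parts free of `m`-th powers for all `m ≥ 3` simultaneously: `c < 1 / 2`). More generally, if `l(n) < ∞` and `Q(n)` is
the number of these parts, then `l(n) ≤ (2 + ε) log₂ n + C_ε (1 + Q(n)) ^ (3 + ε)`. So `l(n) ≤ n` holds for all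
large `n` for which `l(n) < ∞` and `Q(n) ≤ n ^ c`.

Method: a window of `w = δ log L` steps of a trajectory with `L` different terms. If three terms `x, T^i x, T^j x`
(`0 < i < j ≤ w`, `T` the shortcut map) are of the form `k + s a ^ m`, `(k, s)` in a given set of pairs, then `a`
solves simultaneously two equations `A b ^ m - B a ^ m = e`, `A' c ^ m - B' a ^ m = e'` whose coefficients are
determined by `x` modulo `2 ^ w` and by the three pairs; `e` and `e'` are small and independent of the size of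
the multipliers. For `m ≥ 3` one such equation, for `m = 2` the pair of equations has the gap principle
`a₁ a₂ ≤ E a₃` for any three solutions `a₁ < a₂ < a₃`, hence only `O(log log a)` solutions up to `a`. The number
of the classes is a power of `L` less than one.
-/

set_option autoImplicit false

namespace Pool.Agent.Results.MP_e43fce_nt.SquarefreeParts

open Finset

/-- The Collatz function. -/
def C (n : ℕ) : ℕ := if n % 2 = 0 then n / 2 else 3 * n + 1

open Classical in
/-- The total stopping time `l(n)`: the least `k ≥ 0` with `C^(k)(n) = 1`, and `⊤ = ∞` if there is none. -/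
noncomputable def l (n : ℕ) : ℕ∞ :=
  if h : ∃ k : ℕ, C^[k] n = 1 then ((Nat.find h : ℕ) : ℕ∞) else ⊤

/-- The trajectory of `n` enters a cycle which does not contain `1`. -/
def EntersOtherCycle (n : ℕ) : Prop :=
  ∃ i p : ℕ, 1 ≤ p ∧ C^[i + p] n = C^[i] n ∧ ∀ j : ℕ, C^[j] n ≠ 1

/-- All odd ones among the first `L` terms of the trajectory of `n` are of the form `s a ^ m` with `s ∈ Q`. For
`m = 2` this holds if `Q` is the set of the squarefree parts of these terms. -/
def Covers (n L m : ℕ) (Q : Finset ℕ) : Prop :=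
  ∀ j < L, C^[j] n % 2 = 1 → ∃ s ∈ Q, ∃ a : ℕ, C^[j] n = s * a ^ m

/-- The shortcut map on the integers: `x / 2` for even `x`, `(3 x + 1) / 2` for odd `x`. -/
def T (x : ℤ) : ℤ := if x % 2 = 0 then x / 2 else (3 * x + 1) / 2

/-- `y = k + s a ^ m` for an integer `a` and a pair `(k, s)` in `P` with `s ≠ 0`, and `2 ^ i` does not divide
`y - k` when `i ≥ 1` and `T^i k` is also the first coordinate of a pair in `P`. (The last condition holds if
`y - k` is odd, and if no forward iterate `T^i k`, `i ≥ 1`, is a first coordinate.) -/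
def Special (P : Finset (ℤ × ℤ)) (m : ℕ) (y : ℤ) : Prop :=
  ∃ k s a : ℤ, (k, s) ∈ P ∧ s ≠ 0 ∧ y = k + s * a ^ m ∧
    ∀ i : ℕ, 1 ≤ i → (∃ s' : ℤ, (T^[i] k, s') ∈ P) → ¬ (2 : ℤ) ^ i ∣ y - k

lemma admissible {r m₀ m : ℕ} (h : (m₀ = 2 ∧ r = 3) ∨ (m₀ = 3 ∧ r = 2)) (hm : m₀ ≤ m) :
    (r = 2 ∨ r = 3) ∧ 5 ≤ m + r ∧ 2 ≤ m := by omega

/-- the terms before the first visit to `1`, or all terms of a trajectory which does not enter a cycle,
are different -/
lemma distinct_of {n L : ℕ} (hL : (L : ℕ∞) ≤ l n) (hc : ¬ EntersOtherCycle n) :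
    ∀ i < L, ∀ j < L, C^[i] n = C^[j] n → i = j := by
  classical
  have key : ∀ i j : ℕ, i < j → j < L → C^[i] n ≠ C^[j] n := by
    intro i j hij hjL he
    by_cases h1 : ∃ k, C^[k] n = 1
    · have hl : l n = ((Nat.find h1 : ℕ) : ℕ∞) := by unfold l; rw [dif_pos h1]
      rw [hl, Nat.cast_le] at hL
      have hk := Nat.find_spec h1
      set k := Nat.find h1 with hkd
      have h2 : C^[k - j + i] n = 1 := by
        rw [Function.iterate_add_apply, he, ← Function.iterate_add_apply, show k - j + j = k by omega]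
        exact hk
      exact Nat.find_min h1 (show k - j + i < Nat.find h1 by omega) h2
    · refine hc ⟨i, j - i, by omega, ?_, fun m hm => h1 ⟨m, hm⟩⟩
      rw [show i + (j - i) = j by omega, he]
  intro i hi j hj he
  rcases lt_trichotomy i j with h1 | h1 | h1
  · exact absurd he (key i j h1 hj)
  · exact h1
  · exact absurd he.symm (key j i h1 hi)

lemma distinct_fin {n k : ℕ} (hk : l n = k) : ∀ i < k, ∀ j < k, C^[i] n = C^[j] n → i = j := by
  classical
  apply distinct_of hk.ge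
  rintro ⟨_, _, _, _, h⟩
  have h1 : ¬ ∃ j, C^[j] n = 1 := fun ⟨j, hj⟩ => h j hj
  unfold l at hk
  rw [dif_neg h1] at hk
  exact absurd hk (by simp)

/-- **Main theorem.** Let `r = 3` for the exponents `m ≥ m₀ = 2`, or `r = 2` for the exponents
`m ≥ m₀ = 3`.

(1) Let `r c < 1`. For all large exceptions `n`, `l(n) > n`, whose trajectory does not enter a cycle without `1`,
for all `m ≥ m₀` and every set `Q` of at most `n ^ c` integers, not all odd ones of the first `n` terms of the
trajectory are of the form `s a ^ m`, `s ∈ Q`.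

(2) For every `ε > 0` there is `K` such that for all `n ≥ 1` with `l(n) < ∞` and all `m ≥ m₀`: if all odd terms
before `1` are of the form `s a ^ m`, `s ∈ Q`, then `l(n) ≤ (2 + ε) log₂ n + K (1 + |Q|) ^ (r + ε)`.

(3) Let `c, δ ≥ 0`, `r c < 1`, `c + (r - 1) δ < 1`. There is `K` such that for all exceptions `n ≥ 30`, `l(n) > n`,
whose trajectory does not enter a cycle without `1`, all `m ≥ m₀` and every set `P` of at most `(n / 2) ^ c` pairs
of integers with first coordinates of size at most `(n / 2) ^ δ`, at most `K n / log n` of the numbers `T^t n`,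
`t < n / 2` (which are terms of the trajectory, and different) are special for `P` and `m`. -/
theorem result (r m₀ : ℕ) (hr : (m₀ = 2 ∧ r = 3) ∨ (m₀ = 3 ∧ r = 2)) :
    (∀ c : ℝ, r * c < 1 → ∃ n₀ : ℕ, ∀ n : ℕ, n₀ ≤ n → (n : ℕ∞) < l n → ¬ EntersOtherCycle n →
      ∀ m : ℕ, m₀ ≤ m → ∀ Q : Finset ℕ, (Q.card : ℝ) ≤ (n : ℝ) ^ c → ¬ Covers n n m Q) ∧
    (∀ ε : ℝ, 0 < ε → ∃ K : ℝ, ∀ n k : ℕ, 1 ≤ n → l n = k → ∀ m : ℕ, m₀ ≤ m →
      ∀ Q : Finset ℕ, Covers n k m Q →
        (k : ℝ) ≤ (2 + ε) * Real.logb 2 n + K * (1 + Q.card : ℝ) ^ ((r : ℝ) + ε)) ∧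
    (∀ c δ : ℝ, 0 ≤ c → 0 ≤ δ → r * c < 1 → c + (r - 1 : ℕ) * δ < 1 →
      ∃ K : ℝ, ∀ n : ℕ, 30 ≤ n → (n : ℕ∞) < l n → ¬ EntersOtherCycle n → ∀ m : ℕ, m₀ ≤ m →
        ∀ P : Finset (ℤ × ℤ), (P.card : ℝ) ≤ ((n / 2 : ℕ) : ℝ) ^ c →
        (∀ q ∈ P, |(q.1 : ℝ)| ≤ ((n / 2 : ℕ) : ℝ) ^ δ) →
        ∀ F : Finset ℕ, F ⊆ range (n / 2) → (∀ t ∈ F, Special P m (T^[t] (n : ℤ))) →
          (F.card : ℝ) ≤ K * (n / Real.log n)) ∧
    (∀ n t : ℕ, ∃ j : ℕ, t ≤ j ∧ j ≤ 2 * t ∧ ((C^[j] n : ℕ) : ℤ) = T^[t] (n : ℤ)) := by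
  have hr23 : r = 2 ∨ r = 3 := by omega
  refine ⟨?_, ?_, ?_, ?_⟩
  · intro c hc
    obtain ⟨n₀, h⟩ := Pool.Agent.V5helper5.CO.exc_many r hr23 hc
    exact ⟨n₀, fun n hn hex hcyc m hm Q hQ => h n hn (distinct_of hex.le hcyc) m
      (admissible hr hm).2.1 (admissible hr hm).2.2 Q hQ⟩
  · intro ε hε
    obtain ⟨K, _, h⟩ := Pool.Agent.V5helper5.CO.natC_bound r hr23 hε
    exact ⟨K, fun n k hn hk m hm Q hQ => h n k hn (distinct_fin hk) m
      (admissible hr hm).2.1 (admissible hr hm).2.2 Q hQ⟩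
  · intro c δ hc0 hδ0 h1 h2
    obtain ⟨K, hK0, h⟩ := Pool.Agent.V5helper5.CO.sp_long r hr23 hc0 hδ0 h1 h2
    refine ⟨2 * K, fun n hn hex hcyc m hm P hP hB F hF hsp => ?_⟩
    have hnR : (30 : ℝ) ≤ n := by exact_mod_cast hn
    have hlogb : Real.logb 2 (n : ℝ) ≤ ((n / 2 : ℕ) : ℝ) := by
      have h3 : n ≤ 2 ^ (n / 2) := by
        obtain ⟨j, rfl | rfl⟩ : ∃ j, n = 2 * j ∨ n = 2 * j + 1 := ⟨n / 2, by omega⟩
        · have h4 : ∀ j : ℕ, 4 ≤ j → 2 * j + 1 ≤ 2 ^ j := by
            intro j hj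
            induction j, hj using Nat.le_induction with
            | base => norm_num
            | succ j hj ih => rw [pow_succ]; omega
          have := h4 j (by omega)
          rw [show 2 * j / 2 = j by omega]; omega
        · have h4 : ∀ j : ℕ, 4 ≤ j → 2 * j + 1 ≤ 2 ^ j := by
            intro j hj
            induction j, hj using Nat.le_induction with
            | base => norm_num
            | succ j hj ih => rw [pow_succ]; omega
          have := h4 j (by omega)
          rw [show (2 * j + 1) / 2 = j by omega]; omega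
      rw [Real.logb_le_iff_le_rpow (by norm_num) (by linarith), Real.rpow_natCast]
      exact_mod_cast h3
    have hinj := Pool.Agent.V5helper5.CO.injC (n := n) (L := n / 2)
      (fun i hi j hj => distinct_of hex.le hcyc i (by omega) j (by omega))
    have h5 := h n (n / 2) (by exact_mod_cast (by omega : 0 < n)) (by omega)
      (by exact_mod_cast hlogb) hinj m (admissible hr hm).2.1 (admissible hr hm).2.2 P hP hB F hF hsp
    refine h5.trans ?_
    -- `(n / 2) / log (n / 2) ≤ 2 n / log n`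
    have hln : 0 < Real.log (n : ℝ) := Real.log_pos (by linarith)
    have h6 : (((n / 2 : ℕ) : ℝ)) ≤ n / 2 := Nat.cast_div_le
    have h7 : (14 : ℝ) ≤ ((n / 2 : ℕ) : ℝ) := by exact_mod_cast (by omega : 14 ≤ n / 2)
    have h8 : (n : ℝ) ≤ 3 * ((n / 2 : ℕ) : ℝ) := by exact_mod_cast (by omega : n ≤ 3 * (n / 2))
    have h9 : 0 < Real.log ((n / 2 : ℕ) : ℝ) := Real.log_pos (by linarith)
    have h10 : Real.log (n : ℝ) ≤ 2 * Real.log ((n / 2 : ℕ) : ℝ) := by
      have e : 2 * Real.log ((n / 2 : ℕ) : ℝ) = Real.log (((n / 2 : ℕ) : ℝ) ^ 2) := by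
        rw [Real.log_pow]; norm_num
      rw [e]
      apply Real.log_le_log (by linarith)
      nlinarith
    have h11 : ((n / 2 : ℕ) : ℝ) / Real.log ((n / 2 : ℕ) : ℝ) ≤ 2 * (n / Real.log n) := by
      rw [← mul_div_assoc, div_le_div_iff₀ h9 hln]
      nlinarith
    nlinarith
  · intro n t
    exact ⟨Pool.Agent.V5helper5.CO.tim n t, Pool.Agent.V5helper5.CO.le_tim n t,
      Pool.Agent.V5helper5.CO.tim_le n t, Pool.Agent.V5helper5.CO.tim_spec n t⟩

end Pool.Agent.Results.MP_e43fce_nt.SquarefreeParts
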